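import Pool.Agent.Zk72.NS.Adv
import Pool.Agent.Zk78.Cpl

/-!
# Stability of the exploration path: coupling by a modification on a sparse random set
-/

set_option autoImplicit false

namespace Pool.Agent.Zk78.NS

open H974 Finset H342P H984P H984N Pool.Agent.Zk36.TT Pool.Agent.Zk72.NS Pool.Agent.Zk60.NW

theorem fractions3 {W k₁ k₂ k₃ : ℝ} (h1 : 0 ≤ k₁) (h2 : 0 ≤ k₂) (h3 : 0 ≤ k₃)
    (h : k₁ + k₂ + k₃ = W) :
    ∃ l₁ l₂ l₃ : ℝ, 0 ≤ l₁ ∧ 0 ≤ l₂ ∧ 0 ≤ l₃ ∧ l₁ + l₂ + l₃ = 1 ∧ l₁ * W = k₁ ∧ l₂ * W = k₂ ∧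
      l₃ * W = k₃ := by
  by_cases hW : W = 0
  · refine ⟨1, 0, 0, by norm_num, le_rfl, le_rfl, by norm_num, ?_, ?_, ?_⟩ <;> nlinarith
  · have hp : 0 < W := lt_of_le_of_ne (by linarith) (Ne.symm hW)
    refine ⟨k₁ / W, k₂ / W, k₃ / W, by positivity, by positivity, by positivity, ?_, ?_, ?_, ?_⟩
    · rw [← add_div, ← add_div, h, div_self hW]
    · field_simp
    · field_simp
    · field_simp

theorem btw_same1 {a : Edg} {U B F : Finset Edg} (h : Btw U B F) :
    Btw U (insert a B) (insert a F) := by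
  refine ⟨?_, ?_⟩
  · intro x hx
    rw [Finset.mem_sdiff, Finset.mem_insert] at hx
    rw [Finset.mem_insert]
    rcases hx.1 with h1 | h1
    · exact Or.inl h1
    · exact Or.inr (h.1 (Finset.mem_sdiff.2 ⟨h1, hx.2⟩))
  · intro x hx
    rw [Finset.mem_insert] at hx
    rw [Finset.mem_union, Finset.mem_insert]
    rcases hx with h1 | h1
    · exact Or.inl (Or.inl h1)
    · rcases Finset.mem_union.1 (h.2 h1) with h2 | h2
      · exact Or.inl (Or.inr h2)
      · exact Or.inr h2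

theorem btw_u {a : Edg} {U B F B' F' : Finset Edg} (h : Btw U B F)
    (hB : B' = B ∨ B' = insert a B) (hF : F' = F ∨ F' = insert a F) :
    Btw (insert a U) B' F' := by
  have hBi : ∀ x ∈ B', x ≠ a → x ∈ B := by
    intro x hx hne
    rcases hB with rfl | rfl
    · exact hx
    · exact (Finset.mem_insert.1 hx).resolve_left hne
  have hBj : ∀ x ∈ B, x ∈ B' := by
    intro x hx
    rcases hB with rfl | rfl
    · exact hx
    · exact Finset.mem_insert_of_mem hx
  have hFi : ∀ x ∈ F', x ≠ a → x ∈ F := by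
    intro x hx hne
    rcases hF with rfl | rfl
    · exact hx
    · exact (Finset.mem_insert.1 hx).resolve_left hne
  have hFj : ∀ x ∈ F, x ∈ F' := by
    intro x hx
    rcases hF with rfl | rfl
    · exact hx
    · exact Finset.mem_insert_of_mem hx
  refine ⟨?_, ?_⟩
  · intro x hx
    rw [Finset.mem_sdiff, Finset.mem_insert, not_or] at hx
    exact hFj x (h.1 (Finset.mem_sdiff.2 ⟨hBi x hx.1 hx.2.1, hx.2.2⟩))
  · intro x hx
    by_cases hne : x = a
    · rw [hne]
      exact Finset.mem_union_right _ (Finset.mem_insert_self _ _)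
    · rcases Finset.mem_union.1 (h.2 (hFi x hx hne)) with h2 | h2
      · exact Finset.mem_union_left _ (hBj x h2)
      · exact Finset.mem_union_right _ (Finset.mem_insert_of_mem h2)

/-- the coupling, for unnormalised weights -/
theorem cpl_aux {ε : ℝ} (h0 : 0 ≤ ε) (h1 : ε ≤ 1/2) (S : Finset Edg) :
    ∀ w : Finset Edg → ℝ, Near ε S w → ∃ c : Finset Edg → Finset Edg → ℝ,
      (∀ F F', 0 ≤ c F F') ∧
      (∀ F ∈ S.powerset, ∑ F' ∈ S.powerset, c F F' = w F) ∧
      (∀ F' ∈ S.powerset, ∑ F ∈ S.powerset, c F F' =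
        (∑ F ∈ S.powerset, w F) * (1/2) ^ S.card) ∧
      ∀ g h : Finset Edg → Finset Edg → ℝ,
        (∀ U B F, U ⊆ S → B ⊆ S → Btw U B F → g F B ≤ h U B) →
        ∑ F ∈ S.powerset, ∑ B ∈ S.powerset, c F B * g F B ≤
          (∑ F ∈ S.powerset, w F) *
            Ex (fun _ => 2 * ε) S (fun U => E S (fun B => h U B)) := by
  induction S using Finset.induction_on with
  | empty =>
    intro w hw
    have hw0 : 0 ≤ w ∅ := hw.1 ∅ (Finset.Subset.refl _)
    refine ⟨fun _ _ => w ∅, fun _ _ => hw0, by simp, by simp, ?_⟩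
    intro g h hgh
    simp only [Finset.powerset_empty, Finset.sum_singleton, Ex_empty, E]
    exact mul_le_mul_of_nonneg_left (hgh ∅ ∅ ∅ (Finset.Subset.refl _) (Finset.Subset.refl _)
      ⟨by simp, by simp⟩) hw0
  | insert a S ha ih =>
    intro w hw
    obtain ⟨c₁, hc₁, hm₁, hu₁, hE₁⟩ := ih _ (hw.one ha)
    obtain ⟨c₀, hc₀, hm₀, hu₀, hE₀⟩ := ih _ hw.zero
    have hmass := hw.mass ha
    have hW₁ : 0 ≤ ∑ F ∈ S.powerset, w (insert a F) := Finset.sum_nonneg
      (fun F hF => (hw.one ha).1 F (Finset.mem_powerset.mp hF))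
    have hW₀ : 0 ≤ ∑ F ∈ S.powerset, w F := Finset.sum_nonneg
      (fun F hF => hw.zero.1 F (Finset.mem_powerset.mp hF))
    have hW : ∑ F ∈ (insert a S).powerset, w F =
        ∑ F ∈ S.powerset, w (insert a F) + ∑ F ∈ S.powerset, w F := by
      rw [Finset.sum_powerset_insert ha, add_comm]
    rw [hW]
    generalize (∑ F ∈ S.powerset, w (insert a F)) = W₁ at *
    generalize (∑ F ∈ S.powerset, w F) = W₀ at *
    rw [abs_le] at hmass
    obtain ⟨A, hA⟩ : ∃ A, A = (W₁ + W₀) / 2 * (1 - 2 * ε) := ⟨_, rfl⟩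
    have hA0 : 0 ≤ A := by
      rw [hA]
      exact mul_nonneg (by linarith) (by linarith)
    have hs1 : 0 ≤ (W₁ - A) / 2 := by
      rw [hA]; nlinarith
    have hs0 : 0 ≤ (W₀ - A) / 2 := by
      rw [hA]; nlinarith
    obtain ⟨l₁₁₀, l₁₁₁, l₁₀₁, p₁₁₀, p₁₁₁, p₁₀₁, ps₁, pe₁₁₀, pe₁₁₁, pe₁₀₁⟩ :=
      fractions3 (W := W₁) hA0 hs1 hs1 (by ring)
    obtain ⟨l₀₀₀, l₀₀₁, l₀₁₁, p₀₀₀, p₀₀₁, p₀₁₁, ps₀, pe₀₀₀, pe₀₀₁, pe₀₁₁⟩ :=
      fractions3 (W := W₀) hA0 hs0 hs0 (by ring)
    refine ⟨glue a (l₁₁₀ + l₁₁₁) l₁₀₁ l₀₁₁ (l₀₀₀ + l₀₀₁) c₁ c₀,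
      glue_nonneg (add_nonneg p₁₁₀ p₁₁₁) p₁₀₁ p₀₁₁ (add_nonneg p₀₀₀ p₀₀₁) hc₁ hc₀, ?_, ?_, ?_⟩
    · -- first marginal
      intro G hG
      have hGS := Finset.mem_powerset.mp hG
      rw [Finset.sum_powerset_insert ha]
      by_cases haG : a ∈ G
      · obtain ⟨F, hF, haF, rfl⟩ : ∃ F, F ⊆ S ∧ a ∉ F ∧ G = insert a F := by
          refine ⟨G.erase a, ?_, Finset.notMem_erase _ _, (Finset.insert_erase haG).symm⟩
          rw [← Finset.subset_insert_iff]; exact hGS
        have e1 : ∑ t ∈ S.powerset, glue a (l₁₁₀ + l₁₁₁) l₁₀₁ l₀₁₁ (l₀₀₀ + l₀₀₁) c₁ c₀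
            (insert a F) t = l₁₀₁ * w (insert a F) := by
          rw [← hm₁ F (Finset.mem_powerset.mpr hF), Finset.mul_sum]
          apply Finset.sum_congr rfl
          intro t ht
          exact glue10 _ _ _ _ _ _ haF (fun h => ha (Finset.mem_powerset.mp ht h))
        have e2 : ∑ t ∈ S.powerset, glue a (l₁₁₀ + l₁₁₁) l₁₀₁ l₀₁₁ (l₀₀₀ + l₀₀₁) c₁ c₀
            (insert a F) (insert a t) = (l₁₁₀ + l₁₁₁) * w (insert a F) := by
          rw [← hm₁ F (Finset.mem_powerset.mpr hF), Finset.mul_sum]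
          apply Finset.sum_congr rfl
          intro t ht
          exact glue11 _ _ _ _ _ _ haF (fun h => ha (Finset.mem_powerset.mp ht h))
        rw [e1, e2, ← add_mul, add_comm l₁₀₁, ps₁, one_mul]
      · have hF : G ⊆ S := by
          intro x hx
          rcases Finset.mem_insert.mp (hGS hx) with h | h
          · exact absurd (h ▸ hx) haG
          · exact h
        have e1 : ∑ t ∈ S.powerset, glue a (l₁₁₀ + l₁₁₁) l₁₀₁ l₀₁₁ (l₀₀₀ + l₀₀₁) c₁ c₀ G t =
            (l₀₀₀ + l₀₀₁) * w G := by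
          rw [← hm₀ G (Finset.mem_powerset.mpr hF), Finset.mul_sum]
          apply Finset.sum_congr rfl
          intro t ht
          exact glue00 _ _ _ _ _ _ haG (fun h => ha (Finset.mem_powerset.mp ht h))
        have e2 : ∑ t ∈ S.powerset, glue a (l₁₁₀ + l₁₁₁) l₁₀₁ l₀₁₁ (l₀₀₀ + l₀₀₁) c₁ c₀ G
            (insert a t) = l₀₁₁ * w G := by
          rw [← hm₀ G (Finset.mem_powerset.mpr hF), Finset.mul_sum]
          apply Finset.sum_congr rfl
          intro t ht
          exact glue01 _ _ _ _ _ _ haG (fun h => ha (Finset.mem_powerset.mp ht h))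
        rw [e1, e2, ← add_mul, ps₀, one_mul]
    · -- second marginal
      intro G' hG'
      have hGS := Finset.mem_powerset.mp hG'
      rw [Finset.sum_powerset_insert ha, Finset.card_insert_of_notMem ha, pow_succ]
      by_cases haG : a ∈ G'
      · obtain ⟨F, hF, haF, rfl⟩ : ∃ F, F ⊆ S ∧ a ∉ F ∧ G' = insert a F := by
          refine ⟨G'.erase a, ?_, Finset.notMem_erase _ _, (Finset.insert_erase haG).symm⟩
          rw [← Finset.subset_insert_iff]; exact hGS
        have e1 : ∑ t ∈ S.powerset, glue a (l₁₁₀ + l₁₁₁) l₁₀₁ l₀₁₁ (l₀₀₀ + l₀₀₁) c₁ c₀ t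
            (insert a F) = l₀₁₁ * (W₀ * (1/2) ^ S.card) := by
          rw [← hu₀ F (Finset.mem_powerset.mpr hF), Finset.mul_sum]
          apply Finset.sum_congr rfl
          intro t ht
          exact glue01 _ _ _ _ _ _ (fun h => ha (Finset.mem_powerset.mp ht h)) haF
        have e2 : ∑ t ∈ S.powerset, glue a (l₁₁₀ + l₁₁₁) l₁₀₁ l₀₁₁ (l₀₀₀ + l₀₀₁) c₁ c₀
            (insert a t) (insert a F) = (l₁₁₀ + l₁₁₁) * (W₁ * (1/2) ^ S.card) := by
          rw [← hu₁ F (Finset.mem_powerset.mpr hF), Finset.mul_sum]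
          apply Finset.sum_congr rfl
          intro t ht
          exact glue11 _ _ _ _ _ _ (fun h => ha (Finset.mem_powerset.mp ht h)) haF
        rw [e1, e2, ← mul_assoc, ← mul_assoc, add_mul, pe₀₁₁, pe₁₁₀, pe₁₁₁]
        rw [hA]
        ring
      · have hF : G' ⊆ S := by
          intro x hx
          rcases Finset.mem_insert.mp (hGS hx) with h | h
          · exact absurd (h ▸ hx) haG
          · exact h
        have e1 : ∑ t ∈ S.powerset, glue a (l₁₁₀ + l₁₁₁) l₁₀₁ l₀₁₁ (l₀₀₀ + l₀₀₁) c₁ c₀ t G' =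
            (l₀₀₀ + l₀₀₁) * (W₀ * (1/2) ^ S.card) := by
          rw [← hu₀ G' (Finset.mem_powerset.mpr hF), Finset.mul_sum]
          apply Finset.sum_congr rfl
          intro t ht
          exact glue00 _ _ _ _ _ _ (fun h => ha (Finset.mem_powerset.mp ht h)) haG
        have e2 : ∑ t ∈ S.powerset, glue a (l₁₁₀ + l₁₁₁) l₁₀₁ l₀₁₁ (l₀₀₀ + l₀₀₁) c₁ c₀
            (insert a t) G' = l₁₀₁ * (W₁ * (1/2) ^ S.card) := by
          rw [← hu₁ G' (Finset.mem_powerset.mpr hF), Finset.mul_sum]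
          apply Finset.sum_congr rfl
          intro t ht
          exact glue10 _ _ _ _ _ _ (fun h => ha (Finset.mem_powerset.mp ht h)) haG
        rw [e1, e2, ← mul_assoc, ← mul_assoc, add_mul, pe₀₀₀, pe₀₀₁, pe₁₀₁]
        rw [hA]
        ring
    · -- the bound
      intro g h hgh
      have hsub : ∀ F, F ⊆ S → F ⊆ insert a S := fun F hF => hF.trans (Finset.subset_insert _ _)
      have hins : ∀ F, F ⊆ S → insert a F ⊆ insert a S :=
        fun F hF => Finset.insert_subset_insert _ hF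
      have b110 := hE₁ (fun F B => g (insert a F) (insert a B)) (fun U B => h U (insert a B))
        (fun U B F hU hB hb => hgh _ _ _ (hsub U hU) (hins B hB) (btw_same1 hb))
      have b111 := hE₁ (fun F B => g (insert a F) (insert a B))
        (fun U B => h (insert a U) (insert a B))
        (fun U B F hU hB hb => hgh _ _ _ (hins U hU) (hins B hB)
          (btw_u hb (Or.inr rfl) (Or.inr rfl)))
      have b101 := hE₁ (fun F B => g (insert a F) B) (fun U B => h (insert a U) B)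
        (fun U B F hU hB hb => hgh _ _ _ (hins U hU) (hsub B hB)
          (btw_u hb (Or.inl rfl) (Or.inr rfl)))
      have b000 := hE₀ g h (fun U B F hU hB hb => hgh _ _ _ (hsub U hU) (hsub B hB) hb)
      have b001 := hE₀ g (fun U B => h (insert a U) B)
        (fun U B F hU hB hb => hgh _ _ _ (hins U hU) (hsub B hB)
          (btw_u hb (Or.inl rfl) (Or.inl rfl)))
      have b011 := hE₀ (fun F B => g F (insert a B)) (fun U B => h (insert a U) (insert a B))
        (fun U B F hU hB hb => hgh _ _ _ (hins U hU) (hins B hB)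
          (btw_u hb (Or.inr rfl) (Or.inl rfl)))
      have hno : ∀ F ∈ S.powerset, a ∉ F := fun F hF h => ha (Finset.mem_powerset.mp hF h)
      rw [sum_double ha]
      have e11 : ∑ F ∈ S.powerset, ∑ F' ∈ S.powerset,
          glue a (l₁₁₀ + l₁₁₁) l₁₀₁ l₀₁₁ (l₀₀₀ + l₀₀₁) c₁ c₀ (insert a F) (insert a F') *
            g (insert a F) (insert a F') =
          (l₁₁₀ + l₁₁₁) * ∑ F ∈ S.powerset, ∑ F' ∈ S.powerset, c₁ F F' *
            g (insert a F) (insert a F') := by
        rw [Finset.mul_sum]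
        refine Finset.sum_congr rfl (fun F hF => ?_)
        rw [Finset.mul_sum]
        refine Finset.sum_congr rfl (fun F' hF' => ?_)
        rw [glue11 _ _ _ _ _ _ (hno F hF) (hno F' hF')]
        ring
      have e10 : ∑ F ∈ S.powerset, ∑ F' ∈ S.powerset,
          glue a (l₁₁₀ + l₁₁₁) l₁₀₁ l₀₁₁ (l₀₀₀ + l₀₀₁) c₁ c₀ (insert a F) F' *
            g (insert a F) F' =
          l₁₀₁ * ∑ F ∈ S.powerset, ∑ F' ∈ S.powerset, c₁ F F' * g (insert a F) F' := by
        rw [Finset.mul_sum]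
        refine Finset.sum_congr rfl (fun F hF => ?_)
        rw [Finset.mul_sum]
        refine Finset.sum_congr rfl (fun F' hF' => ?_)
        rw [glue10 _ _ _ _ _ _ (hno F hF) (hno F' hF')]
        ring
      have e01 : ∑ F ∈ S.powerset, ∑ F' ∈ S.powerset,
          glue a (l₁₁₀ + l₁₁₁) l₁₀₁ l₀₁₁ (l₀₀₀ + l₀₀₁) c₁ c₀ F (insert a F') *
            g F (insert a F') =
          l₀₁₁ * ∑ F ∈ S.powerset, ∑ F' ∈ S.powerset, c₀ F F' * g F (insert a F') := by
        rw [Finset.mul_sum]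
        refine Finset.sum_congr rfl (fun F hF => ?_)
        rw [Finset.mul_sum]
        refine Finset.sum_congr rfl (fun F' hF' => ?_)
        rw [glue01 _ _ _ _ _ _ (hno F hF) (hno F' hF')]
        ring
      have e00 : ∑ F ∈ S.powerset, ∑ F' ∈ S.powerset,
          glue a (l₁₁₀ + l₁₁₁) l₁₀₁ l₀₁₁ (l₀₀₀ + l₀₀₁) c₁ c₀ F F' * g F F' =
          (l₀₀₀ + l₀₀₁) * ∑ F ∈ S.powerset, ∑ F' ∈ S.powerset, c₀ F F' * g F F' := by
        rw [Finset.mul_sum]
        refine Finset.sum_congr rfl (fun F hF => ?_)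
        rw [Finset.mul_sum]
        refine Finset.sum_congr rfl (fun F' hF' => ?_)
        rw [glue00 _ _ _ _ _ _ (hno F hF) (hno F' hF')]
        ring
      rw [e11, e10, e01, e00, Ex_insert _ ha]
      have eE : ∀ V, E (insert a S) (fun B => h V B) =
          1/2 * E S (fun B => h V (insert a B)) + 1/2 * E S (fun B => h V B) := by
        intro V
        unfold E
        rw [Ex_insert _ ha]
        norm_num
      simp only [eE, Ex_add, Ex_mul_left]
      generalize Ex (fun _ => 2 * ε) S (fun U => E S (fun B => h U (insert a B))) = H01 at *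
      generalize Ex (fun _ => 2 * ε) S (fun U => E S (fun B => h U B)) = H00 at *
      generalize Ex (fun _ => 2 * ε) S (fun U => E S (fun B => h (insert a U) (insert a B))) =
        H11 at *
      generalize Ex (fun _ => 2 * ε) S (fun U => E S (fun B => h (insert a U) B)) = H10 at *
      have q110 := mul_le_mul_of_nonneg_left b110 p₁₁₀
      have q111 := mul_le_mul_of_nonneg_left b111 p₁₁₁
      have q101 := mul_le_mul_of_nonneg_left b101 p₁₀₁
      have q000 := mul_le_mul_of_nonneg_left b000 p₀₀₀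
      have q001 := mul_le_mul_of_nonneg_left b001 p₀₀₁
      have q011 := mul_le_mul_of_nonneg_left b011 p₀₁₁
      rw [← mul_assoc, pe₁₁₀] at q110
      rw [← mul_assoc, pe₁₁₁] at q111
      rw [← mul_assoc, pe₁₀₁] at q101
      rw [← mul_assoc, pe₀₀₀] at q000
      rw [← mul_assoc, pe₀₀₁] at q001
      rw [← mul_assoc, pe₀₁₁] at q011
      have key : (W₁ + W₀) * (2 * ε * (1/2 * H11 + 1/2 * H10) +
          (1 - 2 * ε) * (1/2 * H01 + 1/2 * H00)) =
          A * H01 + (W₁ - A) / 2 * H11 + (W₁ - A) / 2 * H10 +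
          (A * H00 + (W₀ - A) / 2 * H10 + (W₀ - A) / 2 * H11) := by
        rw [hA]; ring
      rw [key]
      linarith

theorem t_CPL : Pool.Agent.Zk72.NS.S_CPL := by
  intro S ε w h0 h1 hw hs hn
  obtain ⟨c, a1, a2, a3, a4⟩ := cpl_aux h0 h1 S w ⟨hw, hn⟩
  refine ⟨c, a1, a2, ?_, ?_⟩
  · intro B hB
    rw [a3 B hB, hs, one_mul]
  · intro g h hgh
    have := a4 g h hgh
    rwa [hs, one_mul] at this

end Pool.Agent.Zk78.NS
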