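import Pool.Agent.Zk36.TT.Flip

/-!
# Stability of the exploration path: the order of two states does not change
-/

set_option autoImplicit false

namespace Pool.Agent.Zk78.NS

open H974 Finset H342P H984P H984N Pool.Agent.Zk36.TT

/-- the path visits `σ`, and then (or at the same time) `τ` -/
def Bf (D : Dm) (F : Finset Edg) (σ τ : St) : Prop :=
  ∃ i j, i ≤ j ∧ j ≤ D.len F ∧ D.walk F i = σ ∧ D.walk F j = τ

variable {D : Dm} {F : Finset Edg} {e : Edg} {σ τ : St}

theorem cfg_wir (hw : e ∈ D.wir) : D.cfg (flip e F) = D.cfg F := by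
  ext f
  by_cases h : f = e
  · subst h
    unfold Dm.cfg
    simp only [Set.mem_union, hw, or_true]
  · exact mem_cfg_ne h

theorem walk_wir (hw : e ∈ D.wir) : D.walk (flip e F) = D.walk F := by
  funext k
  unfold Dm.walk
  rw [cfg_wir hw]

theorem len_wir (hw : e ∈ D.wir) : D.len (flip e F) = D.len F := by
  unfold Dm.len
  rw [walk_wir hw]

/-- one flip -/
theorem ord_flip (hD : D.Ok) (hF : F ⊆ D.edges) (he : e ∈ D.edges) (h1 : D.Vis (flip e F) σ)
    (h2 : D.Vis (flip e F) τ) (h : Bf D F σ τ) : Bf D (flip e F) σ τ := by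
  by_cases hw : e ∈ D.wir
  · obtain ⟨i, j, hij, hj, e1, e2⟩ := h
    refine ⟨i, j, hij, ?_, ?_, ?_⟩
    · rwa [len_wir hw]
    · rwa [walk_wir hw]
    · rwa [walk_wir hw]
  by_cases hnone : ∀ i, ¬ At D F e i
  · obtain ⟨a1, a2⟩ := none_len hD hF hnone
    obtain ⟨i, j, hij, hj, e1, e2⟩ := h
    exact ⟨i, j, hij, by rwa [a1], by rw [a2 i (hij.trans hj)]; exact e1,
      by rw [a2 j hj]; exact e2⟩
  push Not at hnone
  obtain ⟨i, hi⟩ := hnone
  by_cases hone : ∀ k, At D F e k → k = i
  · -- once becomes twice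
    obtain ⟨l, hil, g1, g2⟩ := once_twice hD hF he hw hi hone
    have hF' := flip_sub he hF
    obtain ⟨c1, c2, c3, c4⟩ := cut hD hF' hw hil g1 g2
    rw [Pool.Agent.Zk36.TT.flip_flip] at c1 c2 c3
    obtain ⟨a, b, hab, hb, e1, e2⟩ := h
    have hl := g2.1
    -- the time change
    have key : ∀ t, t ≤ D.len F → D.walk (flip e F) (if t ≤ i then t else t + (l - i)) =
        D.walk F t := by
      intro t ht
      split_ifs with h3
      · exact (c2 t h3).symm
      · obtain ⟨m, rfl⟩ : ∃ m, t = i + m := ⟨t - i, by omega⟩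
        rw [c3 m (by omega) (by omega)]
        congr 1
        omega
    refine ⟨_, _, ?_, ?_, (key a (hab.trans hb)).trans e1, (key b hb).trans e2⟩
    · split_ifs <;> omega
    · split_ifs <;> omega
  · -- twice becomes once
    push Not at hone
    obtain ⟨k, hk, hki⟩ := hone
    obtain ⟨i, l, hil, g1, g2⟩ : ∃ i l, i < l ∧ At D F e i ∧ At D F e l := by
      rcases lt_or_gt_of_ne hki with h3 | h3
      · exact ⟨k, i, h3, hk, hi⟩
      · exact ⟨i, k, h3, hi, hk⟩
    obtain ⟨c1, c2, c3, c4⟩ := cut hD hF hw hil g1 g2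
    obtain ⟨a, b, hab, hb, e1, e2⟩ := h
    have hl := g2.1
    have key : ∀ t, t ≤ D.len F → D.Vis (flip e F) (D.walk F t) →
        (t ≤ i ∨ l < t) := by
      rintro t ht ⟨t', ht', h3⟩
      by_contra hcon
      push Not at hcon
      rcases le_or_gt t' i with h4 | h4
      · rw [c2 t' h4] at h3
        have := walk_ne hD hF (by omega) ht h3
        omega
      · obtain ⟨m, rfl⟩ : ∃ m, t' = i + m := ⟨t' - i, by omega⟩
        rw [c3 m (by omega) (by omega)] at h3
        have := walk_ne hD hF (by omega) ht h3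
        omega
    have hval : ∀ t, t ≤ D.len F → (t ≤ i ∨ l < t) →
        D.walk (flip e F) (if t ≤ i then t else t - (l - i)) = D.walk F t := by
      intro t ht h3
      split_ifs with h4
      · exact c2 t h4
      · have h5 : l < t := by omega
        obtain ⟨m, rfl⟩ : ∃ m, t = l + m := ⟨t - l, by omega⟩
        rw [← c3 m (by omega) (by omega)]
        congr 1
        omega
    have ka := key a (hab.trans hb) (by rw [e1]; exact h1)
    have kb := key b hb (by rw [e2]; exact h2)
    refine ⟨_, _, ?_, ?_, (hval a (hab.trans hb) ka).trans e1, (hval b hb kb).trans e2⟩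
    · split_ifs <;> omega
    · split_ifs <;> omega

theorem ord_all (hD : D.Ok) : ∀ (n : ℕ) (F F' : Finset Edg), (symmDiff F F').card = n →
    F ⊆ D.edges → F' ⊆ D.edges →
    (∀ G, F ∩ F' ⊆ G → G ⊆ F ∪ F' → D.Vis G σ ∧ D.Vis G τ) → Bf D F σ τ → Bf D F' σ τ := by
  intro n
  induction n with
  | zero =>
    intro F F' h0 _ _ _ h
    rw [Finset.card_eq_zero, Finset.bot_eq_empty.symm, symmDiff_eq_bot] at h0
    rwa [← h0]
  | succ n ih =>
    intro F F' hn hF hF' hG h
    obtain ⟨e, he⟩ : (symmDiff F F').Nonempty := by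
      rw [← Finset.card_pos]
      omega
    have heE : e ∈ D.edges := by
      rcases Finset.mem_symmDiff.1 he with h1 | h1
      · exact hF h1.1
      · exact hF' h1.1
    have hsd : symmDiff (flip e F) F' = (symmDiff F F').erase e := by
      ext f
      rw [Finset.mem_erase, Finset.mem_symmDiff, Finset.mem_symmDiff]
      by_cases hf : f = e
      · subst hf
        rw [mem_flip_self]
        rw [Finset.mem_symmDiff] at he
        tauto
      · rw [mem_flip_ne hf]
        tauto
    have hcard : (symmDiff (flip e F) F').card = n := by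
      rw [hsd, Finset.card_erase_of_mem he, hn]
      rfl
    have hint : F ∩ F' ⊆ flip e F ∩ F' := by
      intro f hf
      rw [Finset.mem_inter] at hf ⊢
      have hfe : f ≠ e := by
        rintro rfl
        rw [Finset.mem_symmDiff] at he
        tauto
      exact ⟨(mem_flip_ne hfe).2 hf.1, hf.2⟩
    have hun : flip e F ∪ F' ⊆ F ∪ F' := by
      intro f hf
      rw [Finset.mem_union] at hf ⊢
      by_cases hfe : f = e
      · subst hfe
        rw [Finset.mem_symmDiff] at he
        tauto
      · rcases hf with h1 | h1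
        · exact Or.inl ((mem_flip_ne hfe).1 h1)
        · exact Or.inr h1
    have hv := hG (flip e F) (hint.trans Finset.inter_subset_left)
      (Finset.subset_union_left.trans hun)
    exact ih (flip e F) F' hcard (flip_sub heE hF) hF'
      (fun G h1 h2 => hG G (hint.trans h1) (h2.trans hun))
      (ord_flip hD hF heE hv.1 hv.2 h)

end Pool.Agent.Zk78.NS
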