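import Pool.Agent.Zk72.NS.Shp
import Pool.Agent.Zk78.NS.Ord0

/-!
# Stability of the exploration path: the order of two states does not change
-/

set_option autoImplicit false

namespace Pool.Agent.Zk78.NS

open H984P

theorem t_ORD : Pool.Agent.Zk72.NS.S_ORD := by
  intro D F F' σ τ hD hF hF' hG h
  exact ord_all hD _ F F' rfl hF hF' hG h

end Pool.Agent.Zk78.NS
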