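import Pool.Agent.Zk72.NS.Stm

/-!
# Stability of the exploration path under noise: the edges are resampled one after the other
-/

set_option autoImplicit false

namespace Pool.Agent.Zk78.NS

open H974 Finset H342P H984P H984N Pool.Agent.Zk36.TT Pool.Agent.Zk72.NS

theorem mix_iii {a : Edg} (U B C : Finset Edg) :
    mixN (insert a U) (insert a B) (insert a C) = insert a (mixN U B C) := by
  ext x
  by_cases h : x = a <;> simp [mixN, h]

theorem mix_iin {a : Edg} {U B C : Finset Edg} (hB : a ∉ B) (hC : a ∉ C) :
    mixN (insert a U) (insert a B) C = mixN U B C := by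
  ext x
  by_cases h : x = a
  · subst h; simp [mixN, hC, hB]
  · simp [mixN, h]

theorem mix_ini {a : Edg} (U B C : Finset Edg) :
    mixN (insert a U) B (insert a C) = insert a (mixN U B C) := by
  ext x
  by_cases h : x = a <;> simp [mixN, h]

theorem mix_inn {a : Edg} {U B C : Finset Edg} (hB : a ∉ B) (hC : a ∉ C) :
    mixN (insert a U) B C = mixN U B C := by
  ext x
  by_cases h : x = a
  · subst h; simp [mixN, hC, hB]
  · simp [mixN, h]

theorem mix_nii {a : Edg} {U B C : Finset Edg} (hU : a ∉ U) :
    mixN U (insert a B) (insert a C) = insert a (mixN U B C) := by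
  ext x
  by_cases h : x = a
  · subst h; simp [mixN, hU]
  · simp [mixN, h]

theorem mix_nin {a : Edg} {U B C : Finset Edg} (hU : a ∉ U) :
    mixN U (insert a B) C = insert a (mixN U B C) := by
  ext x
  by_cases h : x = a
  · subst h; simp [mixN, hU]
  · simp [mixN, h]

theorem mix_nni {a : Edg} {U B C : Finset Edg} (hU : a ∉ U) :
    mixN U B (insert a C) = mixN U B C := by
  ext x
  by_cases h : x = a
  · subst h; simp [mixN, hU]
  · simp [mixN, h]

theorem E_ins {a : Edg} {S : Finset Edg} (ha : a ∉ S) (f : Finset Edg → ℝ) :
    E (insert a S) f = 1/2 * E S (fun F => f (insert a F)) + 1/2 * E S f := by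
  unfold E
  rw [Ex_insert _ ha]
  norm_num

/-- the configuration after the noise has the same law -/
theorem law_mix (S U : Finset Edg) (g : Finset Edg → ℝ) :
    E S (fun B => E S (fun C => g (mixN U B C))) = E S g := by
  induction S using Finset.induction_on generalizing U g with
  | empty => simp [E, Ex_empty, mixN]
  | insert a S ha ih =>
    have hno : ∀ F : Finset Edg, F ⊆ S → a ∉ F := fun F hF h => ha (hF h)
    rw [E_ins ha, E_ins ha]
    by_cases hU : a ∈ U
    · obtain ⟨V, hV, rfl⟩ : ∃ V, a ∉ V ∧ U = insert a V :=
        ⟨U.erase a, Finset.notMem_erase _ _, (Finset.insert_erase hU).symm⟩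
      have e1 : E S (fun B => E (insert a S) (fun C => g (mixN (insert a V) (insert a B) C))) =
          1/2 * E S (fun F => g (insert a F)) + 1/2 * E S g := by
        rw [← ih V (fun F => g (insert a F)), ← ih V g]
        unfold E
        rw [← Ex_mul_left, ← Ex_mul_left, ← Ex_add]
        refine Ex_congr (fun B hB => ?_)
        have := E_ins ha (fun C => g (mixN (insert a V) (insert a B) C))
        unfold E at this
        rw [this]
        congr 2
        · refine Ex_congr (fun C hC => ?_)
          rw [mix_iii]
        · refine Ex_congr (fun C hC => ?_)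
          rw [mix_iin (hno B hB) (hno C hC)]
      have e2 : E S (fun B => E (insert a S) (fun C => g (mixN (insert a V) B C))) =
          1/2 * E S (fun F => g (insert a F)) + 1/2 * E S g := by
        rw [← ih V (fun F => g (insert a F)), ← ih V g]
        unfold E
        rw [← Ex_mul_left, ← Ex_mul_left, ← Ex_add]
        refine Ex_congr (fun B hB => ?_)
        have := E_ins ha (fun C => g (mixN (insert a V) B C))
        unfold E at this
        rw [this]
        congr 2
        · refine Ex_congr (fun C hC => ?_)
          rw [mix_ini]
        · refine Ex_congr (fun C hC => ?_)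
          rw [mix_inn (hno B hB) (hno C hC)]
      rw [e1, e2]
      ring
    · have e1 : E S (fun B => E (insert a S) (fun C => g (mixN U (insert a B) C))) =
          E S (fun F => g (insert a F)) := by
        rw [← ih U (fun F => g (insert a F))]
        refine Ex_congr (fun B hB => ?_)
        have := E_ins ha (fun C => g (mixN U (insert a B) C))
        rw [this]
        have e3 : E S (fun C => g (mixN U (insert a B) (insert a C))) =
            E S (fun C => g (insert a (mixN U B C))) :=
          Ex_congr (fun C hC => by rw [mix_nii hU])
        have e4 : E S (fun C => g (mixN U (insert a B) C)) =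
            E S (fun C => g (insert a (mixN U B C))) :=
          Ex_congr (fun C hC => by rw [mix_nin hU])
        rw [e3, e4]
        ring
      have e2 : E S (fun B => E (insert a S) (fun C => g (mixN U B C))) = E S g := by
        rw [← ih U g]
        refine Ex_congr (fun B hB => ?_)
        have := E_ins ha (fun C => g (mixN U B C))
        rw [this]
        have e3 : E S (fun C => g (mixN U B (insert a C))) = E S (fun C => g (mixN U B C)) :=
          Ex_congr (fun C hC => by rw [mix_nni hU])
        rw [e3]
        ring
      rw [e1, e2]

theorem flip_ins {a e : Edg} (h : e ≠ a) (F : Finset Edg) :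
    flip e (insert a F) = insert a (flip e F) := by
  ext x
  by_cases hx : x = e
  · subst hx
    rw [mem_flip_self]
    simp [h, mem_flip_self]
  · rw [mem_flip_ne hx]
    simp [mem_flip_ne hx]

theorem flip_mem {a : Edg} {F : Finset Edg} (h : a ∉ F) : flip a F = insert a F := by
  simp [Pool.Agent.Zk36.TT.flip, h]

theorem flip_mem' {a : Edg} {F : Finset Edg} (h : a ∉ F) : flip a (insert a F) = F := by
  simp [Pool.Agent.Zk36.TT.flip, h]

theorem t_RES : Pool.Agent.Zk72.NS.S_RES := by
  intro S ε
  induction S using Finset.induction_on with
  | empty =>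
    intro d h0 h1 hd ht
    simp [E, Ex_empty, mixN, hd]
  | insert a S ha ih =>
    intro d h0 h1 hd ht
    have hno : ∀ F : Finset Edg, F ⊆ S → a ∉ F := fun F hF h => ha (hF h)
    have ok : Ok (fun _ : Edg => ε) := fun _ => ⟨h0, h1⟩
    have i0 := ih d h0 h1 hd ht
    have i1 := ih (fun F G => d (insert a F) (insert a G)) h0 h1 (fun F => hd _)
      (fun F G H => ht _ _ _)
    -- the two values
    have v1 : ∀ U, U ⊆ S → E (insert a S) (fun B => E (insert a S)
        (fun C => d B (mixN (insert a U) B C))) ≤
        1/2 * E S (fun B => E S (fun C => d (insert a B) (insert a (mixN U B C)))) +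
        1/2 * E S (fun B => E S (fun C => d B (mixN U B C))) +
        1/4 * E S (fun F => d (insert a F) F + d F (insert a F)) := by
      intro U hU
      rw [← law_mix S U (fun F => d (insert a F) F + d F (insert a F)), E_ins ha]
      simp only [E_ins ha]
      unfold E
      simp only [← Ex_mul_left, ← Ex_add]
      refine Ex_mono okh (fun B hB => Ex_mono okh (fun C hC => ?_))
      rw [mix_iii, mix_iin (hno B hB) (hno C hC), mix_ini, mix_inn (hno B hB) (hno C hC)]
      have t1 := ht (insert a B) (insert a (mixN U B C)) (mixN U B C)
      have t2 := ht B (mixN U B C) (insert a (mixN U B C))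
      linarith
    have v0 : ∀ U, U ⊆ S → E (insert a S) (fun B => E (insert a S)
        (fun C => d B (mixN U B C))) =
        1/2 * E S (fun B => E S (fun C => d (insert a B) (insert a (mixN U B C)))) +
        1/2 * E S (fun B => E S (fun C => d B (mixN U B C))) := by
      intro U hU
      rw [E_ins ha]
      simp only [E_ins ha]
      unfold E
      simp only [← Ex_mul_left, ← Ex_add]
      refine Ex_congr (fun B hB => Ex_congr (fun C hC => ?_))
      rw [mix_nii (hno U hU), mix_nin (hno U hU), mix_nni (hno U hU)]
      ring
    have hL : Ex (fun _ => ε) (insert a S) (fun U => E (insert a S) (fun B => E (insert a S)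
        (fun C => d B (mixN U B C)))) ≤
        1/2 * Ex (fun _ => ε) S (fun U => E S (fun B => E S
          (fun C => d (insert a B) (insert a (mixN U B C))))) +
        1/2 * Ex (fun _ => ε) S (fun U => E S (fun B => E S (fun C => d B (mixN U B C)))) +
        ε/4 * E S (fun F => d (insert a F) F + d F (insert a F)) := by
      rw [Ex_insert _ ha]
      have a1 : Ex (fun _ => ε) S (fun U => E (insert a S) (fun B => E (insert a S)
          (fun C => d B (mixN (insert a U) B C)))) ≤
          1/2 * Ex (fun _ => ε) S (fun U => E S (fun B => E S
            (fun C => d (insert a B) (insert a (mixN U B C))))) +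
          1/2 * Ex (fun _ => ε) S (fun U => E S (fun B => E S (fun C => d B (mixN U B C)))) +
          1/4 * E S (fun F => d (insert a F) F + d F (insert a F)) := by
        rw [← Ex_const (fun _ => ε) S (1/4 * E S (fun F => d (insert a F) F + d F (insert a F))),
          ← Ex_mul_left, ← Ex_mul_left, ← Ex_add, ← Ex_add]
        exact Ex_mono ok v1
      have a0 : Ex (fun _ => ε) S (fun U => E (insert a S) (fun B => E (insert a S)
          (fun C => d B (mixN U B C)))) =
          1/2 * Ex (fun _ => ε) S (fun U => E S (fun B => E S
            (fun C => d (insert a B) (insert a (mixN U B C))))) +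
          1/2 * Ex (fun _ => ε) S (fun U => E S (fun B => E S (fun C => d B (mixN U B C)))) := by
        rw [← Ex_mul_left, ← Ex_mul_left, ← Ex_add]
        exact Ex_congr v0
      rw [a0]
      have := mul_le_mul_of_nonneg_left a1 h0
      linarith
    rw [Finset.sum_insert ha]
    have r1 : E (insert a S) (fun F => d F (flip a F)) =
        1/2 * E S (fun F => d (insert a F) F + d F (insert a F)) := by
      rw [E_ins ha]
      unfold E
      rw [Ex_add]
      have b1 : Ex (fun _ => 1/2) S (fun F => d (insert a F) (flip a (insert a F))) =
          Ex (fun _ => 1/2) S (fun F => d (insert a F) F) :=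
        Ex_congr (fun F hF => by rw [flip_mem' (hno F hF)])
      have b2 : Ex (fun _ => 1/2) S (fun F => d F (flip a F)) =
          Ex (fun _ => 1/2) S (fun F => d F (insert a F)) :=
        Ex_congr (fun F hF => by rw [flip_mem (hno F hF)])
      rw [b1, b2]
      ring
    have r2 : ∑ e ∈ S, E (insert a S) (fun F => d F (flip e F)) =
        1/2 * ∑ e ∈ S, E S (fun F => d (insert a F) (insert a (flip e F))) +
        1/2 * ∑ e ∈ S, E S (fun F => d F (flip e F)) := by
      rw [Finset.mul_sum, Finset.mul_sum, ← Finset.sum_add_distrib]
      refine Finset.sum_congr rfl (fun e he => ?_)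
      rw [E_ins ha]
      have hne : e ≠ a := fun h => ha (h ▸ he)
      have b1 : E S (fun F => d (insert a F) (flip e (insert a F))) =
          E S (fun F => d (insert a F) (insert a (flip e F))) :=
        Ex_congr (fun F hF => by rw [flip_ins hne])
      rw [b1]
    rw [r1, r2]
    refine hL.trans ?_
    linarith

end Pool.Agent.Zk78.NS
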